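import Pool.Agent.Helper7.UT.Main

/-!
# Families, flat classes and the functors `T` for the variational Hodge conjecture
-/

set_option autoImplicit false
set_option linter.checkUnivs false

open CategoryTheory Limits AlgebraicGeometry Pool.Agent.Y116.UV Pool.Agent.Q282.UM
  Pool.Agent.Q282.UK Pool.Agent.Helper24.KD Pool.Agent.Helper24.KF Pool.Agent.Helper7.UT

open Pool.Agent.Helper95.WC (hyper dbl addOne)
open Pool.Agent.Helper24.SE (Acy)

universe v u

namespace Pool.Agent.Helper95.HV

/-- The Chow motives over the field `K` with rational coefficients (in the intended use `K` is an algebraic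
closure of `ℂ(t)`): the motives `h(X)`, the Tate twists and the weight
complexes (`Weights`), `CH(N) = Hom(1, N)`, the cohomology `H(N)` and the cycle class map `cl`. -/
structure Mot (K : Type) [Field K] where
  C : Type u
  [cat : Category.{v} C]
  [pre : Preadditive C]
  [zero : HasZeroObject C]
  [bin : HasBinaryBiproducts C]
  [fin : HasFiniteBiproducts C]
  D : Weights K C
  CH : C ⥤ ModuleCat.{0} ℚ
  H : C ⥤ ModuleCat.{0} ℚ
  [ch_additive : CH.Additive]
  [h_additive : H.Additive]
  cl : CH ⟶ H

attribute [instance] Mot.cat Mot.pre Mot.zero Mot.bin Mot.fin Mot.ch_additive Mot.h_additive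

variable {K : Type} [Field K] (M : Mot.{v, u} K)

/-- The motive `h(X)(i)`. -/
noncomputable def Mot.motive (i : ℤ) (X : Sch K) : M.C := (M.D.tw i).obj (M.D.h X)

/-- The space `H^{2i}(X)`. -/
abbrev Mot.coh (i : ℤ) (X : Sch K) : Type := M.H.obj (M.motive i X)

/-- The complex `W(X)(n)`. -/
noncomputable def Mot.wt (n : ℤ) (X : Sch K) : HK M.C := onHK (M.D.tw n) (M.D.W X)

/-- The algebraic classes of `H(N)`. -/
noncomputable def cyc (N : M.C) : Submodule ℚ (M.H.obj N) := LinearMap.range (M.cl.app N).hom

/-- A smooth projective family `𝒳 → S` over a smooth connected complex curve, with an embedding of `ℂ(S)` in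
`K`.

* `gen` is the geometric generic fibre `X`, `Pt` is the set of points of `S`;
* `flat i` is the space of the flat classes in `H^{2i}(X)`, `alg i s` the subspace of those which are
  algebraic at the point `s`;
* `generic`: a flat class is algebraic at all points if and only if it is the class of a cycle on `X`;
* `Cat` is the set of the `S`-linear admissible subcategories of `D_perf(𝒳)`, and `sec 𝒞` is the set of the
  global sections `φ = (φ_i)` of `K_0^top(𝒞/S) ⊗ ℚ ⊆ K_0^top(𝒳/S) ⊗ ℚ`; `whole` is the category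
  `D_perf(𝒳)`. -/
structure Family where
  gen : Sch K
  smooth_projective : IsSmoothProjective gen
  Pt : Type
  flat : ∀ i : ℤ, Submodule ℚ (M.coh i gen)
  alg : ∀ i : ℤ, Pt → Submodule ℚ (M.coh i gen)
  alg_le : ∀ (i : ℤ) (s : Pt), alg i s ≤ flat i
  generic : ∀ (i : ℤ) (φ : M.coh i gen), φ ∈ flat i →
    ((∀ s, φ ∈ alg i s) ↔ φ ∈ cyc M (M.motive i gen))
  Cat : Type
  sec : Cat → Set (∀ i : ℤ, M.coh i gen)
  sec_flat : ∀ (c : Cat) (φ : ∀ i : ℤ, M.coh i gen), φ ∈ sec c → ∀ i, φ i ∈ flat i
  whole : Cat
  sec_whole : ∀ φ : ∀ i : ℤ, M.coh i gen, (∀ i, φ i ∈ flat i) → φ ∈ sec whole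

variable {M}

/-- The variational Hodge conjecture for the classes of degree `2i` on `𝒳 → S`: a flat class which is
algebraic at one point is algebraic at all points. -/
def VHC (i : ℤ) (Y : Family M) : Prop :=
  ∀ φ : M.coh i Y.gen, ∀ o : Y.Pt, φ ∈ Y.alg i o → ∀ s : Y.Pt, φ ∈ Y.alg i s

/-- Question Q1 for `𝒳 → S` and the admissible subcategory `𝒞`: a global section `φ` of
`K_0^top(𝒞/S) ⊗ ℚ` which is algebraic at one point is algebraic at all points. -/
def Question (Y : Family M) (c : Y.Cat) : Prop :=
  ∀ φ ∈ Y.sec c, ∀ o : Y.Pt, (∀ i, φ i ∈ Y.alg i o) → ∀ (s : Y.Pt) (i : ℤ), φ i ∈ Y.alg i s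

variable (Fam : Set (Family M))

/-- The variational Hodge conjecture for the classes of degree `2i` on the families of relative dimension at
most `d`. -/
def VHCDim (i : ℤ) (d : ℕ) : Prop :=
  ∀ Y ∈ Fam, topologicalKrullDim Y.gen.left ≤ d → VHC i Y

/-- Question Q1 for the families of relative dimension at most `d`, and all admissible subcategories. -/
def ConjDim (d : ℕ) : Prop :=
  ∀ Y ∈ Fam, topologicalKrullDim Y.gen.left ≤ d → ∀ c : Y.Cat, Question Y c

section sub

variable {C : Type u} [Category.{v} C] (G : C ⥤ ModuleCat.{0} ℚ) (S : ∀ N : C, Submodule ℚ (G.obj N))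

/-- The subspaces `S N` of `G N` are stable under the maps `G f`. -/
def Stable : Prop := ∀ {N N' : C} (f : N ⟶ N'), ∀ x ∈ S N, (G.map f).hom x ∈ S N'

/-- The space `S N`. -/
noncomputable def subObj (N : C) : ModuleCat.{0} ℚ := ModuleCat.of ℚ (S N)

variable {G S}

/-- The map `S N → S N'`. -/
noncomputable def subMap (h : Stable G S) {N N' : C} (f : N ⟶ N') : subObj G S N ⟶ subObj G S N' :=
  ModuleCat.ofHom ((G.map f).hom.restrict (h f))

lemma subMap_id (h : Stable G S) (N : C) : subMap h (𝟙 N) = 𝟙 (subObj G S N) := by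
  refine ModuleCat.hom_ext (LinearMap.ext fun x => Subtype.ext ?_)
  change (G.map (𝟙 N)).hom x.1 = x.1
  rw [G.map_id]
  rfl

lemma subMap_comp (h : Stable G S) {N N' N'' : C} (f : N ⟶ N') (g : N' ⟶ N'') :
    subMap h (f ≫ g) = subMap h f ≫ subMap h g := by
  refine ModuleCat.hom_ext (LinearMap.ext fun x => Subtype.ext ?_)
  change (G.map (f ≫ g)).hom x.1 = (G.map g).hom ((G.map f).hom x.1)
  rw [G.map_comp]
  rfl

/-- The functor `N ↦ S N`. -/
noncomputable def subF (h : Stable G S) : C ⥤ ModuleCat.{0} ℚ where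
  obj N := subObj G S N
  map f := subMap h f
  map_id N := subMap_id h N
  map_comp f g := subMap_comp h f g

lemma subF_additive [Preadditive C] [G.Additive] (h : Stable G S) : (subF h).Additive where
  map_add {_ _ f g} := by
    refine ModuleCat.hom_ext (LinearMap.ext fun x => Subtype.ext ?_)
    change (G.map (f + g)).hom x.1 = (G.map f).hom x.1 + (G.map g).hom x.1
    rw [G.map_add]
    rfl

end sub

variable (M) in
/-- The functor `N ↦ H(N) / cl(CH(N))`. -/
noncomputable def Quo : M.C ⥤ ModuleCat.{0} ℚ where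
  obj N := cokernel (M.cl.app N)
  map f := cokernel.map _ _ (M.CH.map f) (M.H.map f) (M.cl.naturality f).symm
  map_id N := coequalizer.hom_ext (by simp)
  map_comp f g := coequalizer.hom_ext (by simp)

/-- The class in `H(N) / cl(CH(N))` of an element of `H(N)`. -/
noncomputable def mk (N : M.C) (x : M.H.obj N) : (Quo M).obj N := (cokernel.π (M.cl.app N)).hom x

/-- `z` is the image, in `H(N) / cl(CH(N))`, of a flat class `φ ∈ H^{2i}(X)` which is algebraic at one point,
for a family `𝒳 → S` of relative dimension at most `d`, under a correspondence `f : h(X)(i) → N`. -/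
def IsImage (i : ℤ) (d : ℕ) (N : M.C) (z : (Quo M).obj N) : Prop :=
  ∃ Y ∈ Fam, topologicalKrullDim Y.gen.left ≤ d ∧ ∃ (f : M.motive i Y.gen ⟶ N) (o : Y.Pt)
    (φ : M.coh i Y.gen), φ ∈ Y.alg i o ∧ z = mk N ((M.H.map f).hom φ)

/-- The space `T_{i,d}(N)`, spanned by these images. -/
noncomputable def T (i : ℤ) (d : ℕ) (N : M.C) : Submodule ℚ ((Quo M).obj N) :=
  Submodule.span ℚ {z | IsImage Fam i d N z}

lemma mk_map {N N' : M.C} (f : N ⟶ N') (x : M.H.obj N) :
    ((Quo M).map f).hom (mk N x) = mk N' ((M.H.map f).hom x) := by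
  have e : cokernel.π (M.cl.app N) ≫ (Quo M).map f = M.H.map f ≫ cokernel.π (M.cl.app N') :=
    cokernel.π_desc _ _ _
  exact congrArg (fun φ => φ.hom x) e

lemma stable (i : ℤ) (d : ℕ) : Stable (Quo M) (T Fam i d) := by
  intro N N' g x hx
  have h1 : T Fam i d N ≤ (T Fam i d N').comap ((Quo M).map g).hom := by
    refine Submodule.span_le.mpr ?_
    rintro z ⟨Y, h1, h2, f, o, φ, h3, rfl⟩
    refine Submodule.subset_span ⟨Y, h1, h2, f ≫ g, o, φ, h3, ?_⟩
    rw [mk_map, M.H.map_comp]
    rfl
  exact h1 hx

/-- The functor `T_{i,d}`. -/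
noncomputable def TF (i : ℤ) (d : ℕ) : M.C ⥤ ModuleCat.{0} ℚ := subF (stable Fam i d)

instance : (Quo M).Additive where
  map_add {X Y f g} := by
    change cokernel.map (M.cl.app X) (M.cl.app Y) (M.CH.map (f + g)) (M.H.map (f + g))
        (M.cl.naturality (f + g)).symm =
      cokernel.map (M.cl.app X) (M.cl.app Y) (M.CH.map f) (M.H.map f) (M.cl.naturality f).symm +
        cokernel.map (M.cl.app X) (M.cl.app Y) (M.CH.map g) (M.H.map g) (M.cl.naturality g).symm
    rw [← cancel_epi (cokernel.π (M.cl.app X))]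
    simp [Preadditive.add_comp, Preadditive.comp_add, M.H.map_add]

instance (i : ℤ) (d : ℕ) : (TF Fam i d).Additive := subF_additive (stable Fam i d)

variable (M) in
/-- The known properties of the Chow motives over `K`: the weight complexes, and the fact that the cycle class
maps of the twists of zero-dimensional schemes are surjective. -/
structure Known : Prop where
  weight : IsWeightComplex M.D
  points : ∀ (X : Sch K), IsSmoothProjective X → topologicalKrullDim X.left ≤ (0 : ℕ) →
    ∀ j : ℤ, cyc M (M.motive j X) = ⊤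

/-- The complex `T_{i,d}(W(X)(n))` is exact. -/
def Exact (i : ℤ) (d : ℕ) (n : ℤ) (X : Sch K) : Prop := Acy (TF Fam i d) (M.wt n X)

/-- The cohomology of the complex `T_{i,d}(W(X)(n))` has finite total dimension and Euler characteristic
zero. -/
def EulerZero (i : ℤ) (d : ℕ) (n : ℤ) (X : Sch K) : Prop :=
  FinCoh (TF Fam i d) (M.wt n X) ∧ chi (TF Fam i d) (M.wt n X) = 0

/-- `X` is a smooth affine scheme of finite type over `K`, and the union of two open subschemes which are
isomorphic to the affine space of dimension `N`. -/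
structure IsTwoSpaces (N : ℕ) (X : Sch K) : Prop where
  ft : FT True X
  affine : IsAffine X.left
  smooth : Smooth X.hom
  glued : ∃ j₁ j₂ : aff K (MvPolynomial (Fin N) K) ⟶ X, IsOpenImmersion j₁.left ∧
    IsOpenImmersion j₂.left ∧ Set.range j₁.left ∪ Set.range j₂.left = Set.univ


end Pool.Agent.Helper95.HV
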