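import Pool.Agent.Helper95.HV.Defs

/-!
# The variational Hodge conjecture and unions of two affine spaces
-/

set_option autoImplicit false
set_option linter.checkUnivs false

open CategoryTheory Limits AlgebraicGeometry Pool.Agent.Y116.UV Pool.Agent.Q282.UM
  Pool.Agent.Q282.UK Pool.Agent.Helper24.KD Pool.Agent.Helper24.KF Pool.Agent.Helper7.UT

open Pool.Agent.Helper95.WC (hyper dbl addOne)
open Pool.Agent.Helper24.SE (Acy)

universe v u

namespace Pool.Agent.Helper95.HV

variable {K : Type} [Field K] {M : Mot.{v, u} K} {Fam : Set (Family M)}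

lemma coker_zero {A B : ModuleCat.{0} ℚ} (f : A ⟶ B) (x : B) :
    (cokernel.π f).hom x = 0 ↔ x ∈ LinearMap.range f.hom := by
  have e : (ModuleCat.cokernelIsoRangeQuotient f).hom.hom ((cokernel.π f).hom x) =
      Submodule.Quotient.mk x :=
    congrArg (fun φ => φ.hom x) (ModuleCat.cokernel_π_cokernelIsoRangeQuotient_hom f)
  constructor
  · intro h
    rw [h, map_zero] at e
    exact (Submodule.Quotient.mk_eq_zero _).mp e.symm
  · intro h
    have h2 := congrArg (ModuleCat.cokernelIsoRangeQuotient f).inv.hom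
      (e.trans ((Submodule.Quotient.mk_eq_zero _).mpr h))
    rw [map_zero] at h2
    exact (congrArg (fun φ => φ.hom ((cokernel.π f).hom x))
      (ModuleCat.cokernelIsoRangeQuotient f).hom_inv_id).symm.trans h2

lemma mk_eq_zero {N : M.C} (x : M.H.obj N) : mk N x = 0 ↔ x ∈ cyc M N :=
  coker_zero (M.cl.app N) x

lemma mk_surj {N : M.C} (z : (Quo M).obj N) : ∃ x, mk N x = z :=
  (ModuleCat.epi_iff_surjective (cokernel.π (M.cl.app N))).mp inferInstance z

lemma two_spaces {N : ℕ} (f : MvPolynomial (Fin N) K) : IsTwoSpaces (N + 1) (dbl f) where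
  ft := ft_aff True
  affine := (inferInstance : IsAffine (Spec (CommRingCat.of (Pool.Agent.Helper62.DB.Db f))))
  smooth := Pool.Agent.Helper62.DB.smooth0 f (addOne K N)
  glued := Pool.Agent.Helper62.DB.two_spaces0 f (addOne K N)

/-- Q1 and the variational Hodge conjecture. -/
lemma conj_iff (d : ℕ) : ConjDim Fam d ↔ ∀ i, VHCDim Fam i d := by
  classical
  constructor
  · intro h i Y hY hd φ o ho s
    have h1 := h Y hY hd Y.whole (Pi.single i φ) ?_ o ?_ s i
    · rwa [Pi.single_eq_same] at h1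
    · refine Y.sec_whole _ fun j => ?_
      by_cases hj : j = i
      · subst hj
        rw [Pi.single_eq_same]
        exact Y.alg_le j o ho
      · rw [Pi.single_eq_of_ne hj]
        exact Submodule.zero_mem _
    · intro j
      by_cases hj : j = i
      · subst hj
        rwa [Pi.single_eq_same]
      · rw [Pi.single_eq_of_ne hj]
        exact Submodule.zero_mem _
  · exact fun h Y hY hd c φ _ o ho s i => h i Y hY hd (φ i) o (ho i) s

lemma t_zero {i : ℤ} {d : ℕ} (h : VHCDim Fam i d) (N : M.C) :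
    Subsingleton ((TF Fam i d).obj N) := by
  have h1 : T Fam i d N = ⊥ := by
    rw [eq_bot_iff]
    refine Submodule.span_le.mpr ?_
    rintro z ⟨Y, h1, h2, f, o, φ, h3, rfl⟩
    have h4 : φ ∈ cyc M (M.motive i Y.gen) :=
      (Y.generic i φ (Y.alg_le i o h3)).mp (h Y h1 h2 φ o h3)
    rw [← mk_map, (mk_eq_zero φ).mpr h4, map_zero]
    exact Submodule.zero_mem _
  change Subsingleton (T Fam i d N)
  rw [h1]
  infer_instance

lemma of_zero {i : ℤ} {d : ℕ} (h : ∀ Y : Sch K, IsSmoothProjective Y →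
    topologicalKrullDim Y.left ≤ d → Subsingleton ((TF Fam i d).obj ((M.D.tw i).obj (M.D.h Y)))) :
    VHCDim Fam i d := by
  intro Y hY hd φ o ho s
  have h1 : Subsingleton (T Fam i d (M.motive i Y.gen)) := h Y.gen Y.smooth_projective hd
  have h2 : mk (M.motive i Y.gen) φ ∈ T Fam i d (M.motive i Y.gen) := by
    refine Submodule.subset_span ⟨Y, hY, hd, 𝟙 _, o, φ, ho, ?_⟩
    rw [M.H.map_id]
    rfl
  have h3 : mk (M.motive i Y.gen) φ = 0 :=
    congrArg Subtype.val (Subsingleton.elim (⟨_, h2⟩ : T Fam i d _) 0)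
  exact (Y.generic i φ (Y.alg_le i o ho)).mpr ((mk_eq_zero _).mp h3) s

lemma points_zero (hM : Known M) (i : ℤ) (d : ℕ) (n : ℤ) (Y : Sch K) (hY : IsSmoothProjective Y)
    (hd : topologicalKrullDim Y.left ≤ (0 : ℕ)) :
    Subsingleton ((TF Fam i d).obj ((M.D.tw n).obj (M.D.h Y))) := by
  change Subsingleton (T Fam i d (M.motive n Y))
  have h1 : ∀ x : (Quo M).obj (M.motive n Y), x = 0 := by
    intro x
    obtain ⟨x, rfl⟩ := mk_surj x
    refine (mk_eq_zero _).mpr ?_
    rw [hM.points Y hY hd n]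
    exact Submodule.mem_top
  exact ⟨fun a b => Subtype.ext ((h1 a.1).trans (h1 b.1).symm)⟩

lemma euler_iff (i : ℤ) (d : ℕ) (n : ℤ) (X : Sch K) :
    EulerZero Fam i d n X ↔ QP (fun L => TOne (TF Fam i d) L 0) M.D n X := tOne_iff.symm

lemma zero_of {i : ℤ} {d : ℕ} {N : M.C} (h : Subsingleton ((TF Fam i d).obj N)) :
    IsZero ((TF Fam i d).obj N) := @ModuleCat.isZero_of_subsingleton _ _ _ h

lemma exact_terms {i : ℤ} {d : ℕ} {n : ℤ} {X : Sch K} {L : CochainComplex M.C ℤ}
    (e : M.D.W X ≅ toHK L) (h : ∀ j, IsZero ((TF Fam i d).obj ((M.D.tw n).obj (L.X j)))) :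
    Exact Fam i d n X :=
  Pool.Agent.Helper24.SE.acy_iso _
    ⟨((M.D.tw n).mapHomotopyCategory (ComplexShape.up ℤ)).mapIso e.symm⟩
    (Pool.Agent.Helper24.SE.acy_terms _
      (((M.D.tw n).mapHomologicalComplex (ComplexShape.up ℤ)).obj L) h)

lemma exact_point (hM : Known M) (i : ℤ) (d : ℕ) (n : ℤ) : Exact Fam i d n (aff K K) := by
  obtain ⟨L, _, ⟨e⟩, hL⟩ := hM.weight.terms (aff K K) (ft_aff True) 0 (by
    rw [Pool.Agent.Z125.UN.topDim_aff, ringKrullDim_eq_zero_of_field]
    exact le_rfl)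
  refine exact_terms e fun j => ?_
  refine Pool.Agent.Helper24.SE.sumOf_zero (M.D.tw n ⋙ TF Fam i d) ?_ (hL j)
  rintro N ⟨Y, h1, h2, ⟨e⟩⟩
  exact (zero_of (points_zero hM i d n Y h1 h2)).of_iso ((M.D.tw n ⋙ TF Fam i d).mapIso e.symm)

lemma exact_all (hM : Known M) {i : ℤ} {d : ℕ} (h : VHCDim Fam i d) (n : ℤ) (X : Sch K)
    (hX : FT True X) : Exact Fam i d n X := by
  have hc := cls (th_acy (TF Fam i d)) hM.weight (D := M.D) n
  refine of_affine' (P := Exact Fam i d n) hc.iso hc.total (fun B _ _ _ => ?_) X hX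
  obtain ⟨N, hN⟩ := Pool.Agent.Helper24.KZ.exists_dim_aff (k := K) B
  obtain ⟨L, _, ⟨e⟩, _⟩ := hM.weight.terms (aff K B) (ft_aff True) N hN
  exact exact_terms e fun j => zero_of (t_zero h _)

lemma conj_of [PerfectField K] (hM : Known M) {i : ℤ} {d : ℕ} {P : HK M.C → Prop} (hP : Th P)
    (hp : ∀ n : ℤ, QP P M.D n (aff K K))
    (hz : ∀ N : M.C, P (inZero N) → Subsingleton ((TF Fam i d).obj N))
    (h : ∀ f : MvPolynomial (Fin (d + 1)) K, QP P M.D (i + 1) (dbl f)) : VHCDim Fam i d := by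
  refine of_zero fun Y hY hd => ?_
  have h1 : QP P M.D i Y := of_hyper hP hM.weight (hp _)
    (fun f => (dbl_hyper hP hM.weight (hp _) f).mp (h f)) Y (ft_projective hY) hd
  obtain ⟨e⟩ := hM.weight.projective Y hY
  refine hz _ (hP.iso ⟨((M.D.tw i).mapHomotopyCategory (ComplexShape.up ℤ)).mapIso e ≪≫ ?_⟩ h1)
  exact (HomotopyCategory.quotient M.C (ComplexShape.up ℤ)).mapIso
    ((HomologicalComplex.singleMapHomologicalComplex (M.D.tw i) (ComplexShape.up ℤ) 0).app
      (M.D.h Y))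

lemma exact_euler {i : ℤ} {d : ℕ} {n : ℤ} {X : Sch K} (h : Exact Fam i d n X) :
    EulerZero Fam i d n X := by
  have h1 : ∀ c, Subsingleton (Hn (TF Fam i d) c (M.wt n X)) := fun c =>
    ModuleCat.subsingleton_of_isZero (h c)
  have h2 : ∀ c, Module.finrank ℚ (Hn (TF Fam i d) c (M.wt n X)) = 0 := fun c =>
    have := h1 c
    Module.finrank_zero_of_subsingleton
  refine ⟨⟨fun c => ?_, ?_⟩, ?_⟩
  · have := h1 c
    infer_instance
  · simp only [h2, Function.support_fun_zero, Set.finite_empty]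
  · unfold chi
    simp only [h2, Nat.cast_zero, mul_zero, finsum_zero]

lemma of_exact [PerfectField K] (hM : Known M) {i : ℤ} {d : ℕ}
    (h : ∀ f : MvPolynomial (Fin (d + 1)) K, Exact Fam i d (i + 1) (dbl f)) : VHCDim Fam i d :=
  conj_of hM (th_acy (TF Fam i d)) (exact_point hM i d)
    (fun N hN => ModuleCat.subsingleton_of_isZero
      (Pool.Agent.Helper24.SE.acy_object (TF Fam i d) N hN)) h

lemma euler_point (hM : Known M) (i : ℤ) (d : ℕ) (n : ℤ) :
    QP (fun L => TOne (TF Fam i d) L 0) M.D n (aff K K) :=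
  (euler_iff i d n _).mp (exact_euler (exact_point hM i d n))

lemma of_euler [PerfectField K] (hM : Known M) {i : ℤ} {d : ℕ}
    (h : ∀ f : MvPolynomial (Fin (d + 1)) K, EulerZero Fam i d (i + 1) (dbl f)) :
    VHCDim Fam i d :=
  conj_of hM (th_one (TF Fam i d)) (euler_point hM i d)
    (fun N hN => by
      obtain ⟨h1, h2⟩ := one_inZero.mp hN
      exact Module.finrank_zero_iff.mp (by exact_mod_cast h2))
    (fun f => (euler_iff i d _ _).mp (h f))

/-- **The noncommutative variational Hodge conjecture and unions of two affine spaces.** See the explanations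
above. -/
theorem main (K : Type) [Field K] [PerfectField K] (M : Mot.{v, u} K) (hM : Known M)
    (Fam : Set (Family M)) :
    -- (1) the double covers
    (∀ (N : ℕ) (f : MvPolynomial (Fin N) K), IsTwoSpaces (N + 1) (dbl f)) ∧
    -- (2) double covers and hypersurfaces
    (∀ (i : ℤ) (d N : ℕ) (f : MvPolynomial (Fin N) K),
      (Exact Fam i d (i + 1) (dbl f) ↔ Exact Fam i d i (hyper f)) ∧
      (EulerZero Fam i d (i + 1) (dbl f) ↔ EulerZero Fam i d i (hyper f))) ∧
    -- (3) Q1 in one dimension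
    (∀ d : ℕ,
      (ConjDim Fam d ↔
        ∀ (i : ℤ) (f : MvPolynomial (Fin (d + 1)) K), Exact Fam i d (i + 1) (dbl f)) ∧
      (ConjDim Fam d ↔
        ∀ (i : ℤ) (f : MvPolynomial (Fin (d + 1)) K), EulerZero Fam i d (i + 1) (dbl f))) ∧
    -- (4) one degree
    (∀ (i : ℤ) (d : ℕ),
      (VHCDim Fam i d ↔ ∀ f : MvPolynomial (Fin (d + 1)) K, Exact Fam i d (i + 1) (dbl f)) ∧
      (VHCDim Fam i d ↔ ∀ f : MvPolynomial (Fin (d + 1)) K, EulerZero Fam i d (i + 1) (dbl f))) ∧
    -- (5) all dimensions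
    ((∀ d : ℕ, ConjDim Fam d) ↔
      ∀ (i : ℤ) (d N : ℕ) (X : Sch K), IsTwoSpaces N X → Exact Fam i d (i + 1) X) := by
  have h4 : ∀ (i : ℤ) (d : ℕ),
      (VHCDim Fam i d ↔ ∀ f : MvPolynomial (Fin (d + 1)) K, Exact Fam i d (i + 1) (dbl f)) ∧
      (VHCDim Fam i d ↔
        ∀ f : MvPolynomial (Fin (d + 1)) K, EulerZero Fam i d (i + 1) (dbl f)) :=
    fun i d => ⟨⟨fun h f => exact_all hM h _ _ (two_spaces f).ft, of_exact hM⟩,
      ⟨fun h f => exact_euler (exact_all hM h _ _ (two_spaces f).ft), of_euler hM⟩⟩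
  refine ⟨fun N f => two_spaces f, fun i d N f => ⟨?_, ?_⟩, fun d => ⟨?_, ?_⟩, h4, ?_⟩
  · exact dbl_hyper (th_acy (TF Fam i d)) hM.weight (exact_point hM i d _) f
  · rw [euler_iff, euler_iff]
    exact dbl_hyper (th_one (TF Fam i d)) hM.weight (euler_point hM i d _) f
  · rw [conj_iff]
    exact forall_congr' fun i => (h4 i d).1
  · rw [conj_iff]
    exact forall_congr' fun i => (h4 i d).2
  · constructor
    · exact fun h i d N X hX => exact_all hM ((conj_iff d).mp (h d) i) _ X hX.ft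
    · exact fun h d => (conj_iff d).mpr fun i => of_exact hM fun f => h i d (d + 2) _ (two_spaces f)

end Pool.Agent.Helper95.HV
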